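import Pool.Agent.Q197.SK.Defs
import Pool.Agent.Q197.VC.Sph

/-! Proportions of spherical caps. -/

set_option autoImplicit false

open MeasureTheory Metric Filter Topology Set
open Pool.Agent.Q197.NP (E vB vB_pos vol_ball)

namespace Pool.Agent.Q197.SK

variable {n : ℕ}

/-- the part of the unit ball in a cone -/
def cone (e : E n) (t : ℝ) : Set (E n) := {z | z ∈ ball 0 1 ∧ t * ‖z‖ ≤ inner ℝ z e}

lemma cone_meas (e : E n) (t : ℝ) : MeasurableSet (cone e t) := by
  have h1 : Continuous fun z : E n => t * ‖z‖ := by fun_prop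
  have h2 : Continuous fun z : E n => inner ℝ z e := by fun_prop
  have : cone e t = ball 0 1 ∩ {z | t * ‖z‖ ≤ inner ℝ z e} := by ext z; simp [cone]
  rw [this]
  exact measurableSet_ball.inter (isClosed_le h1 h2).measurableSet

lemma cap_eq (e : E n) (t : ℝ) : cap e t = volume.real (cone e t) / vB n := rfl

lemma fin_of_sub {A : Set (E n)} {r : ℝ} (h : A ⊆ ball 0 r) : volume A ≠ ⊤ :=
  ((measure_mono h).trans_lt measure_ball_lt_top).ne

lemma cone_fin (e : E n) (t : ℝ) : volume (cone e t) ≠ ⊤ := fin_of_sub fun _ hz => hz.1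

lemma cap_nonneg (e : E n) (t : ℝ) : 0 ≤ cap e t := by
  rw [cap_eq]
  have := vB_pos n
  positivity

lemma cap_le_one (e : E n) (t : ℝ) : cap e t ≤ 1 := by
  have := vB_pos n
  rw [cap_eq, div_le_one this]
  exact measureReal_mono (fun z hz => hz.1) measure_ball_lt_top.ne

lemma cap_anti (e : E n) : Antitone (cap e) := by
  intro s t hst
  have := vB_pos n
  rw [cap_eq, cap_eq]
  refine div_le_div_of_nonneg_right ?_ this.le
  refine measureReal_mono (fun z hz => ⟨hz.1, le_trans ?_ hz.2⟩) (cone_fin e s)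
  gcongr

/-- the proportion does not depend on the centre -/
lemma cap_congr {e f : E n} (h : ‖e‖ = ‖f‖) (t : ℝ) : cap e t = cap f t := by
  rw [cap_eq, cap_eq]
  congr 1
  set L := (Submodule.span ℝ {e - f})ᗮ.reflection with hL
  have hLe : L e = f := Submodule.reflection_sub h
  have h1 : L ⁻¹' (cone f t) = cone e t := by
    ext z
    simp only [cone, mem_preimage, mem_ofPred_eq, mem_ball_zero_iff, LinearIsometryEquiv.norm_map]
    rw [← hLe, LinearIsometryEquiv.inner_map_map]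
  rw [← h1, measureReal_def, measureReal_def,
    L.measurePreserving.measure_preimage (cone_meas f t).nullMeasurableSet]

/-- the uniform distribution on the unit ball -/
noncomputable def unif (n : ℕ) : Measure (E n) :=
  (volume (ball (0 : E n) 1))⁻¹ • volume.restrict (ball (0 : E n) 1)

lemma vol_ne_zero (n : ℕ) : volume (ball (0 : E n) 1) ≠ 0 :=
  (measure_ball_pos volume 0 one_pos).ne'

lemma unif_apply {A : Set (E n)} (hA : MeasurableSet A) :
    unif n A = (volume (ball (0 : E n) 1))⁻¹ * volume (A ∩ ball 0 1) := by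
  rw [unif, Measure.smul_apply, Measure.restrict_apply hA, smul_eq_mul]

instance unif_prob (n : ℕ) : IsProbabilityMeasure (unif n) := by
  constructor
  rw [unif_apply MeasurableSet.univ, univ_inter]
  exact ENNReal.inv_mul_cancel (vol_ne_zero n) measure_ball_lt_top.ne

lemma unif_real {A : Set (E n)} (hA : MeasurableSet A) :
    (unif n).real A = volume.real (A ∩ ball 0 1) / vB n := by
  rw [measureReal_def, unif_apply hA, ENNReal.toReal_mul, ENNReal.toReal_inv]
  rw [← measureReal_def, ← measureReal_def, inv_mul_eq_div]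
  rfl

lemma unif_zero (hn : 0 < n) : unif n {0} = 0 := by
  have : Nonempty (Fin n) := ⟨⟨0, hn⟩⟩
  rw [unif_apply (measurableSet_singleton 0)]
  have h : volume ({0} ∩ ball (0 : E n) 1) = 0 :=
    measure_mono_null inter_subset_left (measure_singleton 0)
  rw [h, mul_zero]

lemma cone_set_meas (e : E n) (t : ℝ) : MeasurableSet {z : E n | t * ‖z‖ ≤ inner ℝ z e} := by
  have h1 : Continuous fun z : E n => t * ‖z‖ := by fun_prop
  have h2 : Continuous fun z : E n => inner ℝ z e := by fun_prop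
  exact (isClosed_le h1 h2).measurableSet

lemma cap_unif (e : E n) (t : ℝ) : cap e t = (unif n).real {z | t * ‖z‖ ≤ inner ℝ z e} := by
  rw [unif_real (cone_set_meas e t), cap_eq]
  congr 2
  ext z
  simp [cone, and_comm]

/-- a layer cake formula -/
lemma cake {Ω : Type*} [MeasurableSpace Ω] (P : Measure Ω) [IsFiniteMeasure P] (g : Ω → ℝ)
    (hg : Measurable g) (h1 : ∀ᵐ ω ∂P, -1 ≤ g ω ∧ g ω ≤ 1) :
    ∫ ω, (1 + g ω) ∂P = ∫ t in (-1 : ℝ)..1, P.real {ω | t ≤ g ω} := by
  have hint : Integrable (fun ω => 1 + g ω) P := by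
    apply Integrable.of_bound (C := 2) (measurable_const.add hg).aestronglyMeasurable
    filter_upwards [h1] with ω hω
    rw [Real.norm_eq_abs, abs_le]
    show -2 ≤ 1 + g ω ∧ 1 + g ω ≤ 2
    constructor <;> linarith [hω.1, hω.2]
  have hnn : 0 ≤ᵐ[P] fun ω => 1 + g ω := by
    filter_upwards [h1] with ω hω
    simp only [Pi.zero_apply]
    linarith [hω.1]
  rw [hint.integral_eq_integral_meas_le hnn]
  have h2 : ∫ s in Ioi (0 : ℝ), P.real {ω | s ≤ 1 + g ω} =
      ∫ s in Ioc (0 : ℝ) 2, P.real {ω | s ≤ 1 + g ω} := by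
    apply setIntegral_eq_of_subset_of_forall_sdiff_eq_zero measurableSet_Ioi Ioc_subset_Ioi_self
    rintro s ⟨hs1, hs2⟩
    rw [mem_Ioi] at hs1
    rw [mem_Ioc, not_and, not_le] at hs2
    have hs3 := hs2 hs1
    rw [measureReal_eq_zero_iff]
    have : {ω | s ≤ 1 + g ω} ⊆ {ω | ¬ (-1 ≤ g ω ∧ g ω ≤ 1)} := by
      intro ω hω hcon
      rw [mem_ofPred_eq] at hω
      linarith [hcon.2]
    exact measure_mono_null this h1
  rw [h2, ← intervalIntegral.integral_of_le (by norm_num : (0 : ℝ) ≤ 2)]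
  have h3 := intervalIntegral.integral_comp_add_right (a := (-1 : ℝ)) (b := 1)
    (fun s => P.real {ω | s ≤ 1 + g ω}) 1
  norm_num at h3
  rw [← h3]
  apply intervalIntegral.integral_congr
  intro t _
  simp only
  congr 1
  ext ω
  simp only [mem_ofPred_eq]
  constructor <;> intro h <;> linarith

lemma cap_integral (hn : 0 < n) {e : E n} (he : ‖e‖ = 1) :
    ∫ t in (-1 : ℝ)..1, cap e t = 1 := by
  set g : E n → ℝ := fun z => inner ℝ z e / ‖z‖ with hg
  have hgm : Measurable g := by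
    apply Measurable.div
    · exact (by fun_prop : Continuous fun z : E n => (inner ℝ z e : ℝ)).measurable
    · exact measurable_norm
  have hgb : ∀ z : E n, -1 ≤ g z ∧ g z ≤ 1 := by
    intro z
    have h1 : |inner ℝ z e| ≤ ‖z‖ := by
      have := abs_real_inner_le_norm z e
      rwa [he, mul_one] at this
    rw [← abs_le, hg, abs_div, abs_norm]
    exact div_le_one_of_le₀ h1 (norm_nonneg z)
  have h1 := cake (unif n) g hgm (Eventually.of_forall hgb)
  have hne : ∀ᵐ z ∂(unif n), z ≠ 0 := by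
    rw [ae_iff]
    simpa using unif_zero hn
  have h2 : ∀ t, (unif n).real {z | t ≤ g z} = cap e t := by
    intro t
    rw [cap_unif]
    apply measureReal_congr
    filter_upwards [hne] with z hz
    have hz0 : 0 < ‖z‖ := norm_pos_iff.2 hz
    apply propext
    show t ≤ inner ℝ z e / ‖z‖ ↔ t * ‖z‖ ≤ inner ℝ z e
    rw [le_div_iff₀ hz0]
  simp_rw [h2] at h1
  rw [← h1]
  have hgi : Integrable g (unif n) := by
    apply Integrable.of_bound (C := 1) hgm.aestronglyMeasurable
    filter_upwards with z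
    rw [Real.norm_eq_abs, abs_le]
    exact hgb z
  rw [integral_add (integrable_const _) hgi, integral_const, probReal_univ]
  have hsym : ∫ z, g z ∂(unif n) = 0 := by
    have hmp : MeasurePreserving (fun z : E n => -z) (unif n) (unif n) := by
      refine ⟨measurable_neg, ?_⟩
      ext A hA
      rw [Measure.map_apply measurable_neg hA, unif_apply (measurable_neg hA), unif_apply hA]
      congr 1
      have h3 : (fun z : E n => -z) ⁻¹' A ∩ ball 0 1 = (fun z : E n => -z) ⁻¹' (A ∩ ball 0 1) := by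
        ext z
        simp
      rw [h3]
      exact (Measure.measurePreserving_neg (volume : Measure (E n))).measure_preimage
        (hA.inter measurableSet_ball).nullMeasurableSet
    have h4 : ∫ z, g (-z) ∂(unif n) = ∫ z, g z ∂(unif n) :=
      hmp.integral_comp (MeasurableEquiv.neg (E n)).measurableEmbedding g
    have h5 : ∀ z : E n, g (-z) = -g z := by
      intro z
      rw [hg]
      simp [neg_div]
    simp_rw [h5] at h4
    rw [integral_neg] at h4
    linarith
  rw [hsym]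
  simp

lemma sqrt_bound (hn : 0 < n) {ρ : ℝ} (hρ0 : 0 < ρ) :
    √(1 + 2 * (ρ / n) + ρ ^ 2) ^ n ≤ 7 / 4 * √(1 + ρ ^ 2) ^ n := by
  have hn' : (0 : ℝ) < n := by exact_mod_cast hn
  have hn1 : (1 : ℝ) ≤ n := by exact_mod_cast hn
  have h5 : 1 + 2 * (ρ / n) + ρ ^ 2 ≤ (1 + ρ ^ 2) * (1 + 1 / n) := by
    have h6 : 2 * ρ ≤ 1 + ρ ^ 2 := by nlinarith [sq_nonneg (ρ - 1)]
    have h7 : 2 * (ρ / n) ≤ (1 + ρ ^ 2) * (1 / n) := by
      calc 2 * (ρ / n) = (2 * ρ) * (1 / n) := by ring
        _ ≤ _ := by gcongr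
    nlinarith
  have h6 : √(1 + 2 * (ρ / n) + ρ ^ 2) ^ n ≤ √(1 + ρ ^ 2) ^ n * √(1 + 1 / n) ^ n := by
    rw [← mul_pow, ← Real.sqrt_mul (by positivity)]
    gcongr
  have h7 : √(1 + 1 / n) ^ n ≤ 7 / 4 := by
    have h8 : (√(1 + 1 / n) ^ n) ^ 2 ≤ (7 / 4) ^ 2 := by
      rw [← pow_mul, mul_comm n 2, pow_mul, Real.sq_sqrt (by positivity)]
      have h9 : (1 + 1 / (n : ℝ)) ^ n ≤ Real.exp 1 := by
        have h10 : 1 + 1 / (n : ℝ) ≤ Real.exp (1 / n) := by
          have := Real.add_one_le_exp (1 / (n : ℝ))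
          linarith
        calc (1 + 1 / (n : ℝ)) ^ n ≤ Real.exp (1 / n) ^ n := by gcongr
          _ = Real.exp 1 := by
            rw [← Real.exp_nat_mul]
            congr 1
            field_simp
      have h11 := Real.exp_one_lt_d9
      have h12 : (2.7182818286 : ℝ) < (7 / 4) ^ 2 := by norm_num
      linarith
    exact (sq_le_sq₀ (by positivity) (by norm_num)).1 h8
  calc _ ≤ _ := h6
    _ ≤ √(1 + ρ ^ 2) ^ n * (7 / 4) := by gcongr
    _ = _ := by ring

/-- a lower bound for the caps -/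
lemma cap_ge (hn : 0 < n) {e : E n} (he : ‖e‖ = 1) {t : ℝ} (ht0 : 0 < t) (ht1 : t < 1) :
    2 * √(1 - t ^ 2) ^ n / (7 * n) ≤ cap e t := by
  have hn' : (0 : ℝ) < n := by exact_mod_cast hn
  have hV := vB_pos n
  have hs2 : 0 < 1 - t ^ 2 := by nlinarith
  set s := √(1 - t ^ 2) with hs
  have hs0 : 0 < s := Real.sqrt_pos.2 hs2
  have hss : s ^ 2 = 1 - t ^ 2 := Real.sq_sqrt hs2.le
  set ρ := s / t with hρ
  have hρ0 : 0 < ρ := by positivity
  have hρ1 : 1 + ρ ^ 2 = (1 / t) ^ 2 := by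
    rw [hρ, div_pow, hss, div_pow]
    field_simp
    ring
  have h1 := VC.slab_vol (n := n) hρ0 (h := ρ / n) (by positivity) he
  have hceil : ⌈ρ / (ρ / n)⌉₊ = n := by
    have : ρ / (ρ / n) = (n : ℝ) := by field_simp
    rw [this, Nat.ceil_natCast]
  rw [hceil] at h1
  set R := √(1 + 2 * (ρ / n) + ρ ^ 2) with hR
  have hRpos : 0 < 1 + 2 * (ρ / n) + ρ ^ 2 := by positivity
  have hR0 : 0 < R := Real.sqrt_pos.2 hRpos
  have hR2 : R ^ 2 = 1 + 2 * (ρ / n) + ρ ^ 2 := Real.sq_sqrt hRpos.le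
  -- the slab is in the scaled cone
  have hsub : VC.slab ρ (ρ / n) e ⊆ (fun z : E n => R⁻¹ • z) ⁻¹' (cone e t) := by
    rintro z ⟨hz1, hz2, hz3⟩
    rw [mem_ball, dist_eq_norm] at hz1
    have hee : inner ℝ e e = (1 : ℝ) := by rw [real_inner_self_eq_norm_sq, he]; norm_num
    rw [inner_sub_left, hee] at hz2 hz3
    have h3 : ‖z - e‖ ^ 2 < ρ ^ 2 := by
      have := norm_nonneg (z - e)
      nlinarith
    rw [norm_sub_sq_real, he] at h3
    have h4 : ‖z‖ ^ 2 < R ^ 2 := by
      rw [hR2]; nlinarith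
    have h5 : ‖z‖ < R := lt_of_pow_lt_pow_left₀ 2 hR0.le h4
    have h6 : t * ‖z‖ ≤ inner ℝ z e := by
      apply le_of_sq_le_sq (h := ?_) (by linarith)
      have h7 : ‖z‖ ^ 2 ≤ (inner ℝ z e) ^ 2 * (1 + ρ ^ 2) := by
        have h8 : 0 ≤ (inner ℝ z e : ℝ) - 1 := hz2
        nlinarith [mul_nonneg h8 (sq_nonneg ρ), mul_nonneg (mul_nonneg h8 h8) (sq_nonneg ρ), sq_nonneg ρ]
      rw [hρ1] at h7
      rw [mul_pow]
      calc t ^ 2 * ‖z‖ ^ 2 ≤ t ^ 2 * ((inner ℝ z e) ^ 2 * (1 / t) ^ 2) := by gcongr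
        _ = _ := by field_simp
    refine ⟨?_, ?_⟩
    · rw [mem_ball_zero_iff, norm_smul, norm_inv, Real.norm_eq_abs, abs_of_pos hR0]
      rw [inv_mul_lt_iff₀ hR0, mul_one]
      exact h5
    · show t * ‖R⁻¹ • z‖ ≤ inner ℝ (R⁻¹ • z) e
      rw [norm_smul, norm_inv, Real.norm_eq_abs, abs_of_pos hR0, inner_smul_left]
      simp only [conj_trivial]
      calc t * (R⁻¹ * ‖z‖) = R⁻¹ * (t * ‖z‖) := by ring
        _ ≤ _ := by gcongr
  have hscale : volume.real ((fun z : E n => R⁻¹ • z) ⁻¹' (cone e t)) =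
      R ^ n * volume.real (cone e t) := by
    rw [measureReal_def, Measure.addHaar_preimage_smul volume (inv_ne_zero hR0.ne')]
    rw [ENNReal.toReal_mul, ENNReal.toReal_ofReal (abs_nonneg _), ← measureReal_def]
    congr 1
    simp [abs_of_pos hR0]
  have h2 : volume.real (VC.slab ρ (ρ / n) e) ≤ R ^ n * volume.real (cone e t) := by
    rw [← hscale]
    refine measureReal_mono hsub ?_
    rw [Measure.addHaar_preimage_smul volume (inv_ne_zero hR0.ne')]
    exact ENNReal.mul_ne_top ENNReal.ofReal_ne_top (cone_fin e t)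
  have h3 : R ^ n ≤ 7 / 4 * √(1 + ρ ^ 2) ^ n := sqrt_bound hn hρ0
  rw [hρ1, Real.sqrt_sq (by positivity)] at h3
  have h4 : vB n * ρ ^ n ≤ 2 * n * (7 / 4 * (1 / t) ^ n * volume.real (cone e t)) := by
    refine h1.trans ?_
    have := h2.trans (mul_le_mul_of_nonneg_right h3 measureReal_nonneg)
    gcongr
  have h5 : vB n * s ^ n ≤ 7 * n / 2 * volume.real (cone e t) := by
    have h6 : ρ ^ n = s ^ n * (1 / t) ^ n := by rw [← mul_pow, hρ]; congr 1; ring
    rw [h6] at h4
    have h7 : (1 / t) ^ n * (vB n * s ^ n) ≤ (1 / t) ^ n * (7 * n / 2 * volume.real (cone e t)) := by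
      refine le_trans (le_of_eq ?_) (h4.trans (le_of_eq ?_)) <;> ring
    exact le_of_mul_le_mul_left h7 (by positivity)
  rw [cap_eq, div_le_div_iff₀ (by positivity) hV]
  linarith

/-- an upper bound for the caps -/
lemma cap_le {e : E n} (he : ‖e‖ = 1) {t : ℝ} (ht0 : 0 ≤ t) (ht1 : t ^ 2 ≤ 1 / 2) :
    cap e t ≤ √(1 - t ^ 2) ^ n := by
  have hV := vB_pos n
  have hs0 : 0 < √(1 - t ^ 2) := Real.sqrt_pos.2 (by linarith)
  have hss : √(1 - t ^ 2) ^ 2 = 1 - t ^ 2 := Real.sq_sqrt (by linarith)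
  have hsub : cone e t ⊆ closedBall (t • e) √(1 - t ^ 2) := by
    rintro z ⟨hz1, hz2⟩
    rw [mem_ball_zero_iff] at hz1
    rw [mem_closedBall, dist_eq_norm]
    have h0 := norm_nonneg z
    have h2 : ‖z - t • e‖ ^ 2 ≤ √(1 - t ^ 2) ^ 2 := by
      rw [norm_sub_sq_real, inner_smul_right, norm_smul, he, hss, Real.norm_eq_abs,
        abs_of_nonneg ht0]
      have h3 : t * (t * ‖z‖) ≤ t * inner ℝ z e := by gcongr
      nlinarith [mul_nonneg h0 (sub_nonneg.2 hz1.le), mul_nonneg (sub_nonneg.2 hz1.le)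
        (sub_nonneg.2 ht1)]
    exact (sq_le_sq₀ (norm_nonneg _) hs0.le).1 h2
  have h1 : volume.real (cone e t) ≤ vB n * √(1 - t ^ 2) ^ n := by
    refine (measureReal_mono hsub measure_closedBall_lt_top.ne).trans (le_of_eq ?_)
    rw [measureReal_def, Measure.addHaar_closedBall _ _ hs0.le, ENNReal.toReal_mul,
      ENNReal.toReal_ofReal (by positivity), ← measureReal_def]
    simp [vB, mul_comm]
  rw [cap_eq, div_le_iff₀ hV]
  linarith

/-- the integral of the caps -/
lemma int_cap_ge (hn : 0 < n) {e : E n} (he : ‖e‖ = 1) {κ : ℝ} (hκ0 : 0 ≤ κ) (hκ1 : κ < 1) :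
    2 * √(1 - κ ^ 2) ^ (n + 2) / (7 * n * (n + 2)) ≤ ∫ t in κ..1, cap e t := by
  have hn' : (0 : ℝ) < n := by exact_mod_cast hn
  have hint : ∫ t in κ..1, t * √(1 - t ^ 2) ^ n = √(1 - κ ^ 2) ^ (n + 2) / (n + 2) := by
    have hderiv : ∀ t ∈ Ioo κ 1, HasDerivAt (fun t : ℝ => -(√(1 - t ^ 2) ^ (n + 2) / (n + 2)))
        (t * √(1 - t ^ 2) ^ n) t := by
      intro t ht
      have hpos : 0 < 1 - t ^ 2 := by
        have := ht.1; have := ht.2; nlinarith
      have hs0 : 0 < √(1 - t ^ 2) := Real.sqrt_pos.2 hpos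
      have h1 : HasDerivAt (fun t : ℝ => 1 - t ^ 2) (-(2 * t)) t := by
        simpa using ((hasDerivAt_pow 2 t).const_sub 1)
      have h2 := h1.sqrt hpos.ne'
      have h3 := ((h2.pow (n + 2)).div_const ((n : ℝ) + 2)).neg
      refine h3.congr_deriv ?_
      have hn2 : (n : ℝ) + 2 ≠ 0 := by positivity
      have e1 : n + 2 - 1 = n + 1 := by omega
      rw [e1]
      push_cast
      field_simp
      ring
    have hcont : ContinuousOn (fun t : ℝ => -(√(1 - t ^ 2) ^ (n + 2) / (n + 2))) (Icc κ 1) :=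
      Continuous.continuousOn (by fun_prop)
    have hi : IntervalIntegrable (fun t : ℝ => t * √(1 - t ^ 2) ^ n) volume κ 1 :=
      (by fun_prop : Continuous fun t : ℝ => t * √(1 - t ^ 2) ^ n).intervalIntegrable _ _
    rw [intervalIntegral.integral_eq_sub_of_hasDerivAt_of_le hκ1.le hcont hderiv hi]
    simp
  have h2 : 2 * √(1 - κ ^ 2) ^ (n + 2) / (7 * n * (n + 2)) =
      ∫ t in κ..1, 2 / (7 * n) * (t * √(1 - t ^ 2) ^ n) := by
    rw [intervalIntegral.integral_const_mul, hint]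
    field_simp
  rw [h2]
  apply intervalIntegral.integral_mono_on_of_le_Ioo hκ1.le
  · exact (by fun_prop : Continuous fun t : ℝ =>
      2 / (7 * (n : ℝ)) * (t * √(1 - t ^ 2) ^ n)).intervalIntegrable _ _
  · exact (cap_anti e).intervalIntegrable
  · intro t ht
    have ht0 : 0 < t := lt_of_le_of_lt hκ0 ht.1
    refine le_trans ?_ (cap_ge hn he ht0 ht.2)
    have hs0 : 0 ≤ √(1 - t ^ 2) ^ n := by positivity
    calc 2 / (7 * (n : ℝ)) * (t * √(1 - t ^ 2) ^ n) ≤ 2 / (7 * (n : ℝ)) * (1 * √(1 - t ^ 2) ^ n) := by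
          have := ht.2.le
          gcongr
      _ = _ := by ring

end Pool.Agent.Q197.SK
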