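import Mathlib

/-! Hard-core thinning of independent random points. -/

set_option autoImplicit false

open MeasureTheory Filter Topology Set

namespace Pool.Agent.Q197.SK

section abstract
variable {X : Type} [MeasurableSpace X] (σ : Measure X) [IsProbabilityMeasure σ]
  (R : X → X → Prop)

/-- the `i`-th point is not related to any other one -/
def hkeep (m : ℕ) (i : Fin m) : Set (Fin m → X) := {ω | ∀ j, j ≠ i → ¬ R (ω i) (ω j)}

variable {R}

lemma meas_section (hR : MeasurableSet {p : X × X | R p.1 p.2}) (x : X) :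
    MeasurableSet {y | R x y} :=
  (measurable_const.prodMk measurable_id : Measurable fun y : X => (x, y)) hR

lemma meas_hkeep (hR : MeasurableSet {p : X × X | R p.1 p.2}) (m : ℕ) (i : Fin m) :
    MeasurableSet (hkeep R m i) := by
  have : hkeep R m i = ⋂ j : Fin m, ⋂ _ : j ≠ i, {ω | R (ω i) (ω j)}ᶜ := by
    ext ω
    simp [hkeep]
  rw [this]
  refine MeasurableSet.iInter fun j => MeasurableSet.iInter fun _ => MeasurableSet.compl ?_
  exact ((measurable_pi_apply i).prodMk (measurable_pi_apply j) :
    Measurable fun ω : Fin m → X => (ω i, ω j)) hR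

lemma compl_prob (hR : MeasurableSet {p : X × X | R p.1 p.2}) {q : ℝ}
    (hq : ∀ x, σ.real {y | R x y} = q) (x : X) : σ {y | ¬ R x y} = ENNReal.ofReal (1 - q) := by
  have h1 : {y | ¬ R x y} = {y | R x y}ᶜ := rfl
  rw [h1, ← ENNReal.ofReal_toReal (measure_ne_top σ _), ← measureReal_def,
    probReal_compl_eq_one_sub (meas_section hR x), hq x]

/-- the probability that a given point survives -/
lemma keep_prob (hR : MeasurableSet {p : X × X | R p.1 p.2}) {q : ℝ} (hq1 : q ≤ 1)
    (hq : ∀ x, σ.real {y | R x y} = q) (k : ℕ) (i : Fin (k + 1)) :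
    (Measure.pi (fun _ : Fin (k + 1) => σ)).real (hkeep R (k + 1) i) = (1 - q) ^ k := by
  have hmp := measurePreserving_piFinSuccAbove (fun _ : Fin (k + 1) => σ) i
  set S : Set (X × (Fin k → X)) := {p | ∀ j, ¬ R p.1 (p.2 j)} with hS
  have hSm : MeasurableSet S := by
    have : S = ⋂ j : Fin k, {p : X × (Fin k → X) | R p.1 (p.2 j)}ᶜ := by
      ext p; simp [hS]
    rw [this]
    refine MeasurableSet.iInter fun j => MeasurableSet.compl ?_
    exact (measurable_fst.prodMk ((measurable_pi_apply j).comp measurable_snd) :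
      Measurable fun p : X × (Fin k → X) => (p.1, p.2 j)) hR
  have hpre : hkeep R (k + 1) i = (MeasurableEquiv.piFinSuccAbove (fun _ => X) i) ⁻¹' S := by
    ext ω
    simp only [hkeep, hS, mem_preimage, mem_ofPred_eq]
    constructor
    · intro h j
      exact h (i.succAbove j) (Fin.succAbove_ne i j)
    · intro h j hj
      obtain ⟨j', rfl⟩ := Fin.exists_succAbove_eq hj
      exact h j'
  rw [measureReal_def, hpre, hmp.measure_preimage hSm.nullMeasurableSet, Measure.prod_apply hSm]
  have hsec : ∀ x : X, (Measure.pi (fun _ : Fin k => σ)) (Prod.mk x ⁻¹' S) =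
      ENNReal.ofReal (1 - q) ^ k := by
    intro x
    have h1 : Prod.mk x ⁻¹' S = Set.univ.pi fun _ : Fin k => {y | ¬ R x y} := by
      ext w; simp [hS, Set.mem_pi]
    rw [h1, Measure.pi_pi]
    simp_rw [compl_prob σ hR hq x]
    simp
  have h2 : ∫⁻ x, (Measure.pi (fun _ : Fin k => σ)) (Prod.mk x ⁻¹' S) ∂σ =
      ENNReal.ofReal (1 - q) ^ k := by
    rw [lintegral_congr hsec, lintegral_const, measure_univ, mul_one]
  erw [h2]
  rw [ENNReal.toReal_pow, ENNReal.toReal_ofReal (by linarith)]

/-- the mean overlap -/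
lemma overlap (hR : MeasurableSet {p : X × X | R p.1 p.2}) (hsymm : ∀ x y, R x y → R y x) {q : ℝ}
    (hq : ∀ x, σ.real {y | R x y} = q) (x : X) :
    ∫⁻ y, σ {z | R x z ∧ R y z} ∂σ = ENNReal.ofReal (q ^ 2) := by
  have hq0 : 0 ≤ q := by rw [← hq x]; exact measureReal_nonneg
  have hqe : ∀ x, σ {y | R x y} = ENNReal.ofReal q := by
    intro x
    rw [← hq x, measureReal_def, ENNReal.ofReal_toReal (measure_ne_top σ _)]
  set W : Set (X × X) := {p | R x p.2 ∧ R p.1 p.2} with hW
  have hWm : MeasurableSet W := by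
    have h1 : MeasurableSet {p : X × X | R x p.2} :=
      (measurable_const.prodMk measurable_snd : Measurable fun p : X × X => (x, p.2)) hR
    exact h1.inter hR
  have h1 : (σ.prod σ) W = ∫⁻ y, σ {z | R x z ∧ R y z} ∂σ := Measure.prod_apply hWm
  have h2 : (σ.prod σ) W = ∫⁻ z, σ {y | R x z ∧ R y z} ∂σ := Measure.prod_apply_symm hWm
  rw [← h1, h2]
  have h3 : ∀ z, σ {y | R x z ∧ R y z} = {z | R x z}.indicator (fun _ => ENNReal.ofReal q) z := by
    intro z
    by_cases hz : R x z
    · rw [indicator_of_mem (show z ∈ {z | R x z} from hz)]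
      have : {y | R x z ∧ R y z} = {y | R z y} := by
        ext y
        simp only [mem_ofPred_eq]
        exact ⟨fun h => hsymm _ _ h.2, fun h => ⟨hz, hsymm _ _ h⟩⟩
      rw [this, hqe]
    · rw [indicator_of_notMem (show z ∉ {z | R x z} from hz)]
      have : {y | R x z ∧ R y z} = ∅ := by
        ext y
        simp [hz]
      rw [this, measure_empty]
  rw [lintegral_congr h3, lintegral_indicator (meas_section hR x), lintegral_const,
    Measure.restrict_apply MeasurableSet.univ, univ_inter, hqe, ← ENNReal.ofReal_mul hq0, sq]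

/-- an elementary inequality -/
lemma pow_sub_le {a b o : ℝ} (ha0 : 0 ≤ a) (ha1 : a ≤ 1) (hb0 : 0 ≤ b) (hb1 : b ≤ 1) (ho : 0 ≤ o)
    (h : a ≤ b + o) (l : ℕ) : a ^ l ≤ b ^ l + l * o := by
  induction l with
  | zero => simp
  | succ l ih =>
    calc a ^ (l + 1) = a * a ^ l := by ring
      _ ≤ a * (b ^ l + l * o) := by gcongr
      _ = a * b ^ l + a * (l * o) := by ring
      _ ≤ (b + o) * b ^ l + 1 * (l * o) := by gcongr
      _ = b ^ (l + 1) + o * b ^ l + l * o := by ring
      _ ≤ b ^ (l + 1) + o * 1 + l * o := by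
          have : b ^ l ≤ 1 := pow_le_one₀ hb0 hb1
          gcongr
      _ = _ := by push_cast; ring

/-- the probability that two given points survive and satisfy a relation -/
lemma pair_prob (hR : MeasurableSet {p : X × X | R p.1 p.2}) (hsymm : ∀ x y, R x y → R y x) {q : ℝ}
    (hq1 : q ≤ 1) (hq : ∀ x, σ.real {y | R x y} = q) {T : X → X → Prop}
    (hT : MeasurableSet {p : X × X | T p.1 p.2}) {c : ℝ} (hc : ∀ x, σ.real {y | T x y} = c)
    (l : ℕ) {i j : Fin (l + 2)} (hij : j ≠ i) :
    (Measure.pi (fun _ : Fin (l + 2) => σ)).real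
      {ω | ω ∈ hkeep R (l + 2) i ∧ ω ∈ hkeep R (l + 2) j ∧ T (ω i) (ω j)} ≤
      (1 - q) ^ (2 * l) * c + l * q ^ 2 := by
  have hne : Nonempty X := by
    by_contra hcon
    rw [not_nonempty_iff] at hcon
    have h1 : σ univ = 0 := by
      rw [Set.univ_eq_empty_iff.2 hcon, measure_empty]
    rw [measure_univ] at h1
    exact one_ne_zero h1
  obtain ⟨x0⟩ := hne
  have hq0 : 0 ≤ q := by rw [← hq x0]; exact measureReal_nonneg
  have hc0 : 0 ≤ c := by rw [← hc x0]; exact measureReal_nonneg
  obtain ⟨j', rfl⟩ := Fin.exists_succAbove_eq hij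
  -- the measure preserving map
  have hmp1 := measurePreserving_piFinSuccAbove (fun _ : Fin (l + 2) => σ) i
  have hmp2 := measurePreserving_piFinSuccAbove (fun _ : Fin (l + 1) => σ) j'
  have hmp3 : MeasurePreserving (Prod.map id (MeasurableEquiv.piFinSuccAbove (fun _ => X) j'))
      (σ.prod (Measure.pi (fun _ : Fin (l + 1) => σ)))
      (σ.prod (σ.prod (Measure.pi (fun _ : Fin l => σ)))) :=
    (MeasurePreserving.id σ).prod hmp2
  have hmp := hmp3.comp hmp1
  set φ : (Fin (l + 2) → X) → X × X × (Fin l → X) :=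
    (Prod.map id (MeasurableEquiv.piFinSuccAbove (fun _ => X) j')) ∘
      (MeasurableEquiv.piFinSuccAbove (fun _ => X) i) with hφ
  have hφ1 : ∀ ω, φ ω = (ω i, ω (i.succAbove j'), fun r => ω (i.succAbove (j'.succAbove r))) :=
    fun ω => rfl
  set S : Set (X × X × (Fin l → X)) :=
    {p | T p.1 p.2.1 ∧ ∀ r, ¬ R p.1 (p.2.2 r) ∧ ¬ R p.2.1 (p.2.2 r)} with hS
  have hSm : MeasurableSet S := by
    have h1 : S = {p : X × X × (Fin l → X) | T p.1 p.2.1} ∩
        ⋂ r : Fin l, ({p : X × X × (Fin l → X) | R p.1 (p.2.2 r)}ᶜ ∩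
          {p : X × X × (Fin l → X) | R p.2.1 (p.2.2 r)}ᶜ) := by
      ext p; simp [hS]
    rw [h1]
    have m1 : Measurable fun p : X × X × (Fin l → X) => (p.1, p.2.1) :=
      measurable_fst.prodMk (measurable_fst.comp measurable_snd)
    refine (m1 hT).inter (MeasurableSet.iInter fun r => ?_)
    have m2 : Measurable fun p : X × X × (Fin l → X) => p.2.2 r :=
      (measurable_pi_apply r).comp (measurable_snd.comp measurable_snd)
    have m3 : Measurable fun p : X × X × (Fin l → X) => (p.1, p.2.2 r) := measurable_fst.prodMk m2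
    have m4 : Measurable fun p : X × X × (Fin l → X) => (p.2.1, p.2.2 r) :=
      (measurable_fst.comp measurable_snd).prodMk m2
    exact (m3 hR).compl.inter (m4 hR).compl
  have hsub : {ω | ω ∈ hkeep R (l + 2) i ∧ ω ∈ hkeep R (l + 2) (i.succAbove j') ∧
      T (ω i) (ω (i.succAbove j'))} ⊆ φ ⁻¹' S := by
    rintro ω ⟨h1, h2, h3⟩
    rw [mem_preimage, hφ1]
    refine ⟨h3, fun r => ⟨?_, ?_⟩⟩
    · exact h1 _ (Fin.succAbove_ne i _)
    · refine h2 _ ?_
      intro h
      exact Fin.succAbove_ne j' r (Fin.succAbove_right_injective h)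
  have hfin : (Measure.pi (fun _ : Fin (l + 2) => σ)) (φ ⁻¹' S) ≤
      ENNReal.ofReal ((1 - q) ^ (2 * l) * c + l * q ^ 2) := by
    have e1 : (Measure.pi (fun _ : Fin (l + 2) => σ)) (φ ⁻¹' S) =
        (σ.prod (σ.prod (Measure.pi (fun _ : Fin l => σ)))) S :=
      hmp.measure_preimage hSm.nullMeasurableSet
    rw [e1, Measure.prod_apply hSm]
    -- sections
    have hsec : ∀ x y : X, (Measure.pi (fun _ : Fin l => σ)) (Prod.mk y ⁻¹' (Prod.mk x ⁻¹' S)) ≤
        {y | T x y}.indicator (fun _ => ENNReal.ofReal ((1 - q) ^ (2 * l))) y +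
          ENNReal.ofReal l * σ {z | R x z ∧ R y z} := by
      intro x y
      by_cases hxy : T x y
      · rw [indicator_of_mem (show y ∈ {y | T x y} from hxy)]
        have h1 : Prod.mk y ⁻¹' (Prod.mk x ⁻¹' S) =
            Set.univ.pi fun _ : Fin l => {z | ¬ R x z ∧ ¬ R y z} := by
          ext w; simp [hS, Set.mem_pi, hxy]
        rw [h1, Measure.pi_pi, Finset.prod_const, Finset.card_univ, Fintype.card_fin]
        -- real numbers
        have hmx := meas_section hR x
        have hmy := meas_section hR y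
        have h2 : σ.real {z | ¬ R x z ∧ ¬ R y z} = 1 - 2 * q + σ.real {z | R x z ∧ R y z} := by
          have h3 : {z | ¬ R x z ∧ ¬ R y z} = ({z | R x z} ∪ {z | R y z})ᶜ := by
            ext z; simp
          have h4 : {z | R x z ∧ R y z} = {z | R x z} ∩ {z | R y z} := rfl
          rw [h3, h4, probReal_compl_eq_one_sub (hmx.union hmy)]
          have h5 := measureReal_union_add_inter (μ := σ) (s := {z | R x z}) hmy
          rw [hq x, hq y] at h5
          linarith
        have hsub2 : σ.real {z | R x z ∧ R y z} ≤ q := by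
          rw [← hq x]
          exact measureReal_mono fun z hz => hz.1
        have h6 : σ.real {z | ¬ R x z ∧ ¬ R y z} ^ l ≤ ((1 - q) ^ 2) ^ l +
            l * σ.real {z | R x z ∧ R y z} := by
          apply pow_sub_le measureReal_nonneg _ (by positivity) (by nlinarith) measureReal_nonneg
          · rw [h2]
            nlinarith [sq_nonneg q]
          · rw [h2]; linarith
        calc σ {z | ¬ R x z ∧ ¬ R y z} ^ l
            = ENNReal.ofReal (σ.real {z | ¬ R x z ∧ ¬ R y z} ^ l) := by
              rw [ENNReal.ofReal_pow measureReal_nonneg, measureReal_def,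
                ENNReal.ofReal_toReal (measure_ne_top σ _)]
          _ ≤ ENNReal.ofReal (((1 - q) ^ 2) ^ l + l * σ.real {z | R x z ∧ R y z}) :=
              ENNReal.ofReal_le_ofReal h6
          _ = _ := by
              rw [ENNReal.ofReal_add (by positivity) (by positivity),
                ENNReal.ofReal_mul (by positivity), ← pow_mul, measureReal_def,
                ENNReal.ofReal_toReal (measure_ne_top σ _)]
      · have h1 : Prod.mk y ⁻¹' (Prod.mk x ⁻¹' S) = ∅ := by
          ext w; simp [hS, hxy]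
        rw [h1, measure_empty]
        exact zero_le
    have hx : ∀ x : X, (σ.prod (Measure.pi (fun _ : Fin l => σ))) (Prod.mk x ⁻¹' S) ≤
        ENNReal.ofReal ((1 - q) ^ (2 * l) * c + l * q ^ 2) := by
      intro x
      have hSx : MeasurableSet (Prod.mk x ⁻¹' S) := measurable_prodMk_left hSm
      rw [Measure.prod_apply hSx]
      refine (lintegral_mono (hsec x)).trans (le_of_eq ?_)
      rw [lintegral_add_left (measurable_const.indicator (meas_section hT x)),
        lintegral_indicator (meas_section hT x), lintegral_const,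
        Measure.restrict_apply MeasurableSet.univ, univ_inter,
        lintegral_const_mul' _ _ ENNReal.ofReal_ne_top, overlap σ hR hsymm hq x,
        ← ENNReal.ofReal_mul (by positivity)]
      have hce : σ {y | T x y} = ENNReal.ofReal c := by
        rw [← hc x, measureReal_def, ENNReal.ofReal_toReal (measure_ne_top σ _)]
      have h1q : 0 ≤ 1 - q := by linarith
      rw [hce, ← ENNReal.ofReal_mul (by positivity), ← ENNReal.ofReal_add (by positivity)
        (by positivity)]
    refine (lintegral_mono hx).trans ?_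
    rw [lintegral_const, measure_univ, mul_one]
  have hfin2 := (measure_mono hsub).trans hfin
  rw [measureReal_def]
  have h1q : 0 ≤ 1 - q := by linarith
  exact ENNReal.toReal_le_of_le_ofReal (by positivity) hfin2

end abstract

end Pool.Agent.Q197.SK
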