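import Pool.Agent.Q197.SK.Upper
import Pool.Agent.Q197.SK.Thin

/-! Random spherical codes without clustering: the construction. -/

set_option autoImplicit false

open MeasureTheory Metric Filter Topology Set
open Pool.Agent.Q197.NP (E vB vB_pos vol_ball)

namespace Pool.Agent.Q197.SK

variable {n : ℕ}

lemma ocone_meas (e : E n) (t : ℝ) : MeasurableSet {z : E n | t * ‖z‖ < inner ℝ z e} := by
  have h1 : Continuous fun z : E n => t * ‖z‖ := by fun_prop
  have h2 : Continuous fun z : E n => inner ℝ z e := by fun_prop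
  exact (isOpen_lt h1 h2).measurableSet

/-- the proportion of an open cap -/
noncomputable def capo (e : E n) (t : ℝ) : ℝ := (unif n).real {z | t * ‖z‖ < inner ℝ z e}

lemma unif_invariant (L : E n ≃ₗᵢ[ℝ] E n) : MeasurePreserving L (unif n) (unif n) := by
  refine ⟨L.continuous.measurable, ?_⟩
  ext A hA
  rw [Measure.map_apply L.continuous.measurable hA, unif_apply (L.continuous.measurable hA),
    unif_apply hA]
  congr 1
  have h3 : L ⁻¹' A ∩ ball 0 1 = L ⁻¹' (A ∩ ball 0 1) := by
    ext z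
    simp
  rw [h3]
  exact L.measurePreserving.measure_preimage (hA.inter measurableSet_ball).nullMeasurableSet

lemma capo_congr {e f : E n} (h : ‖e‖ = ‖f‖) (t : ℝ) : capo e t = capo f t := by
  set L := (Submodule.span ℝ {e - f})ᗮ.reflection with hL
  have hLe : L e = f := Submodule.reflection_sub h
  have h1 : L ⁻¹' {z | t * ‖z‖ < inner ℝ z f} = {z | t * ‖z‖ < inner ℝ z e} := by
    ext z
    simp only [mem_preimage, mem_ofPred_eq, LinearIsometryEquiv.norm_map]
    rw [← hLe, LinearIsometryEquiv.inner_map_map]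
  unfold capo
  rw [← h1, measureReal_def, measureReal_def,
    (unif_invariant L).measure_preimage (ocone_meas f t).nullMeasurableSet]

lemma capo_le_cap (e : E n) (t : ℝ) : capo e t ≤ cap e t := by
  rw [cap_unif]
  refine measureReal_mono fun z hz => ?_
  have h : t * ‖z‖ < inner ℝ z e := hz
  exact h.le

lemma cap_le_capo (hn : 0 < n) (e : E n) {s t : ℝ} (hst : s < t) : cap e t ≤ capo e s := by
  rw [cap_unif]
  unfold capo
  rw [measureReal_def, measureReal_def]
  apply ENNReal.toReal_mono (measure_ne_top _ _)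
  apply measure_mono_ae
  have hne : ∀ᵐ z ∂(unif n), z ≠ 0 := by
    rw [ae_iff]
    simpa using unif_zero hn
  filter_upwards [hne] with z hz h
  have hz0 : 0 < ‖z‖ := norm_pos_iff.2 hz
  have h' : t * ‖z‖ ≤ inner ℝ z e := h
  show s * ‖z‖ < inner ℝ z e
  nlinarith

lemma capo_pos (hn : 0 < n) {e : E n} (he : ‖e‖ = 1) {κ : ℝ} (hκ1 : κ < 1) : 0 < capo e κ := by
  obtain ⟨t, h1, h2⟩ := exists_between (show max κ 0 < 1 by simp [hκ1])
  have ht0 : 0 < t := lt_of_le_of_lt (le_max_right _ _) h1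
  have hκt : κ < t := lt_of_le_of_lt (le_max_left _ _) h1
  refine lt_of_lt_of_le ?_ ((cap_ge hn he ht0 h2).trans (cap_le_capo hn e hκt))
  have hn' : (0 : ℝ) < n := by exact_mod_cast hn
  have : 0 < √(1 - t ^ 2) := Real.sqrt_pos.2 (by nlinarith)
  positivity

/-- the direction of a vector -/
noncomputable def dir (e0 : sphere (0 : E n) 1) (z : E n) : sphere (0 : E n) 1 :=
  ⟨if z = 0 then (e0 : E n) else ‖z‖⁻¹ • z, by
    split_ifs with h
    · exact e0.2
    · rw [mem_sphere_zero_iff_norm, norm_smul, norm_inv, norm_norm]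
      exact inv_mul_cancel₀ (norm_ne_zero_iff.2 h)⟩

lemma dir_meas (e0 : sphere (0 : E n) 1) : Measurable (dir e0) := by
  apply Measurable.subtype_mk
  apply Measurable.ite (measurableSet_singleton 0) measurable_const
  exact measurable_norm.inv.smul measurable_id

/-- the uniform distribution on the sphere -/
noncomputable def sph (e0 : sphere (0 : E n) 1) : Measure (sphere (0 : E n) 1) :=
  (unif n).map (dir e0)

instance (e0 : sphere (0 : E n) 1) : IsProbabilityMeasure (sph e0) :=
  Measure.isProbabilityMeasure_map (dir_meas e0).aemeasurable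

lemma sph_cap (hn : 0 < n) (e0 x : sphere (0 : E n) 1) (t : ℝ) :
    (sph e0).real {y | t ≤ inner ℝ (x : E n) (y : E n)} = cap (x : E n) t := by
  have hm : MeasurableSet {y : sphere (0 : E n) 1 | t ≤ inner ℝ (x : E n) (y : E n)} := by
    have h2 : Continuous fun y : sphere (0 : E n) 1 => (inner ℝ (x : E n) (y : E n) : ℝ) := by
      fun_prop
    exact (isClosed_le continuous_const h2).measurableSet
  rw [cap_unif, sph, measureReal_def, Measure.map_apply (dir_meas e0) hm, ← measureReal_def]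
  apply measureReal_congr
  have hne : ∀ᵐ z ∂(unif n), z ≠ 0 := by
    rw [ae_iff]
    simpa using unif_zero hn
  filter_upwards [hne] with z hz
  have hz0 : 0 < ‖z‖ := norm_pos_iff.2 hz
  apply propext
  show t ≤ inner ℝ (x : E n) (if z = 0 then (e0 : E n) else ‖z‖⁻¹ • z) ↔
    t * ‖z‖ ≤ inner ℝ z (x : E n)
  rw [if_neg hz, inner_smul_right, real_inner_comm, inv_mul_eq_div, le_div_iff₀ hz0]

lemma sph_capo (hn : 0 < n) (e0 x : sphere (0 : E n) 1) (t : ℝ) :
    (sph e0).real {y | t < inner ℝ (x : E n) (y : E n)} = capo (x : E n) t := by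
  have hm : MeasurableSet {y : sphere (0 : E n) 1 | t < inner ℝ (x : E n) (y : E n)} := by
    have h2 : Continuous fun y : sphere (0 : E n) 1 => (inner ℝ (x : E n) (y : E n) : ℝ) := by
      fun_prop
    exact (isOpen_lt continuous_const h2).measurableSet
  rw [capo, sph, measureReal_def, Measure.map_apply (dir_meas e0) hm, ← measureReal_def]
  apply measureReal_congr
  have hne : ∀ᵐ z ∂(unif n), z ≠ 0 := by
    rw [ae_iff]
    simpa using unif_zero hn
  filter_upwards [hne] with z hz
  have hz0 : 0 < ‖z‖ := norm_pos_iff.2 hz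
  apply propext
  show t < inner ℝ (x : E n) (if z = 0 then (e0 : E n) else ‖z‖⁻¹ • z) ↔
    t * ‖z‖ < inner ℝ z (x : E n)
  rw [if_neg hz, inner_smul_right, real_inner_comm, inv_mul_eq_div, lt_div_iff₀ hz0]

/-- the relation of being close -/
def rel (n : ℕ) (κ : ℝ) (x y : sphere (0 : E n) 1) : Prop := κ < inner ℝ (x : E n) (y : E n)

lemma rel_meas (n : ℕ) (κ : ℝ) :
    MeasurableSet {p : sphere (0 : E n) 1 × sphere (0 : E n) 1 | rel n κ p.1 p.2} := by
  have h2 : Continuous fun p : sphere (0 : E n) 1 × sphere (0 : E n) 1 =>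
      (inner ℝ (p.1 : E n) (p.2 : E n) : ℝ) := by fun_prop
  exact (isOpen_lt continuous_const h2).measurableSet

/-- the thinned random set -/
noncomputable def thin (e0 : sphere (0 : E n) 1) (κ : ℝ) (k : ℕ) : RandomCode n where
  m := k + 1
  Ω := Fin (k + 1) → sphere (0 : E n) 1
  meas := inferInstance
  P := Measure.pi fun _ => sph e0
  prob := inferInstance
  pt := fun i ω => (ω i : E n)
  keep := fun i => hkeep (rel n κ) (k + 1) i
  meas_pt := fun i => measurable_subtype_coe.comp (measurable_pi_apply i)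
  meas_keep := fun i => meas_hkeep (rel_meas n κ) (k + 1) i
  unit := fun i ω _ => mem_sphere_zero_iff_norm.1 (ω i).2

lemma thin_minAngle (e0 : sphere (0 : E n) 1) (κ : ℝ) (k : ℕ) : (thin e0 κ k).MinAngle κ := by
  intro i j hij ω hi _
  have h := hi j hij.symm
  exact not_lt.1 h

lemma thin_size (hn : 0 < n) (e0 : sphere (0 : E n) 1) (κ : ℝ) (k : ℕ) {q : ℝ}
    (hq : ∀ x : sphere (0 : E n) 1, capo (x : E n) κ = q) (hq1 : q ≤ 1) :
    (thin e0 κ k).size = (k + 1) * (1 - q) ^ k := by
  have h1 : (thin e0 κ k).size = ∑ i : Fin (k + 1),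
      (Measure.pi fun _ : Fin (k + 1) => sph e0).real (hkeep (rel n κ) (k + 1) i) := rfl
  have h2 : ∀ i : Fin (k + 1), (Measure.pi fun _ : Fin (k + 1) => sph e0).real
      (hkeep (rel n κ) (k + 1) i) = (1 - q) ^ k := fun i =>
    keep_prob (sph e0) (rel_meas n κ) hq1 (fun x => (sph_capo hn e0 x κ).trans (hq x)) k i
  rw [h1, Finset.sum_congr rfl (fun i _ => h2 i), Finset.sum_const, nsmul_eq_mul,
    Finset.card_univ, Fintype.card_fin]
  push_cast
  rfl

lemma thin_pairs (hn : 0 < n) (e0 : sphere (0 : E n) 1) (κ : ℝ) (l : ℕ) {q : ℝ}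
    (hq : ∀ x : sphere (0 : E n) 1, capo (x : E n) κ = q) (hq1 : q ≤ 1) (t : ℝ) {c : ℝ}
    (hc : ∀ x : sphere (0 : E n) 1, cap (x : E n) t = c) :
    (thin e0 κ (l + 1)).pairs t ≤ (l + 2) * ((l + 1) * ((1 - q) ^ (2 * l) * c + l * q ^ 2)) := by
  have hT : MeasurableSet {p : sphere (0 : E n) 1 × sphere (0 : E n) 1 |
      t ≤ inner ℝ (p.1 : E n) (p.2 : E n)} := by
    have h2 : Continuous fun p : sphere (0 : E n) 1 × sphere (0 : E n) 1 =>
      (inner ℝ (p.1 : E n) (p.2 : E n) : ℝ) := by fun_prop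
    exact (isClosed_le continuous_const h2).measurableSet
  have h1 : (thin e0 κ (l + 1)).pairs t = ∑ i : Fin (l + 2), ∑ j ∈ Finset.univ.erase i,
      (Measure.pi fun _ : Fin (l + 2) => sph e0).real
        {ω | ω ∈ hkeep (rel n κ) (l + 2) i ∧ ω ∈ hkeep (rel n κ) (l + 2) j ∧
          t ≤ inner ℝ (ω i : E n) (ω j : E n)} := rfl
  rw [h1]
  have h2 : ∀ i : Fin (l + 2), ∀ j ∈ Finset.univ.erase i,
      (Measure.pi fun _ : Fin (l + 2) => sph e0).real
        {ω | ω ∈ hkeep (rel n κ) (l + 2) i ∧ ω ∈ hkeep (rel n κ) (l + 2) j ∧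
          t ≤ inner ℝ (ω i : E n) (ω j : E n)} ≤ (1 - q) ^ (2 * l) * c + l * q ^ 2 := by
    intro i j hj
    refine pair_prob (sph e0) (rel_meas n κ) ?_ hq1
      (fun x => (sph_capo hn e0 x κ).trans (hq x))
      (T := fun x y => t ≤ inner ℝ (x : E n) (y : E n)) hT
      (fun x => (sph_cap hn e0 x t).trans (hc x)) l (Finset.ne_of_mem_erase hj)
    intro x y h
    unfold rel at h ⊢
    rw [real_inner_comm]
    exact h
  calc _ ≤ ∑ i : Fin (l + 2), ∑ _j ∈ Finset.univ.erase i,
        ((1 - q) ^ (2 * l) * c + l * q ^ 2) :=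
        Finset.sum_le_sum fun i _ => Finset.sum_le_sum fun j hj => h2 i j hj
    _ = _ := by
        have h3 : ∀ i : Fin (l + 2), ∑ _j ∈ Finset.univ.erase i,
            ((1 - q) ^ (2 * l) * c + l * q ^ 2) =
            (l + 1) * ((1 - q) ^ (2 * l) * c + l * q ^ 2) := by
          intro i
          rw [Finset.sum_const, Finset.card_erase_of_mem (Finset.mem_univ i), nsmul_eq_mul,
            Finset.card_univ, Fintype.card_fin]
          push_cast
          rfl
        rw [Finset.sum_congr rfl (fun i _ => h3 i), Finset.sum_const, nsmul_eq_mul,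
          Finset.card_univ, Fintype.card_fin]
        push_cast
        rfl

theorem lower (hn : 0 < n) {κ : ℝ} (hκ1 : κ < 1) : ∃ C : RandomCode n, C.MinAngle κ ∧
    C.Unclustered (1 / 2) ∧ ∀ e : E n, ‖e‖ = 1 → 1 ≤ 8 * (C.size * cap e κ) := by
  classical
  have he1 : ‖(EuclideanSpace.single ⟨0, hn⟩ 1 : E n)‖ = 1 := by simp
  set e0 : sphere (0 : E n) 1 := ⟨EuclideanSpace.single ⟨0, hn⟩ 1, by
    rw [mem_sphere_zero_iff_norm]; exact he1⟩ with he0
  set q : ℝ := capo (e0 : E n) κ with hqdef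
  have hnorm : ∀ x : sphere (0 : E n) 1, ‖(x : E n)‖ = 1 := fun x => mem_sphere_zero_iff_norm.1 x.2
  have hq : ∀ x : sphere (0 : E n) 1, capo (x : E n) κ = q := fun x =>
    capo_congr ((hnorm x).trans (hnorm e0).symm) κ
  have hq0 : 0 < q := capo_pos hn (hnorm e0) hκ1
  have hq1 : q ≤ 1 := (capo_le_cap _ _).trans (cap_le_one _ _)
  have hqe : ∀ e : E n, ‖e‖ = 1 → q ≤ cap e κ := by
    intro e he
    rw [← cap_congr ((hnorm e0).trans he.symm)]
    exact capo_le_cap _ _
  rcases lt_or_ge (1 / 4) q with h4 | h4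
  · -- a single point
    have hsize : (thin e0 κ 0).size = 1 := by
      rw [thin_size hn e0 κ 0 hq hq1]
      simp
    refine ⟨thin e0 κ 0, thin_minAngle e0 κ 0, ?_, ?_⟩
    · intro e he t _ _
      have h0 : (thin e0 κ 0).pairs t = 0 := by
        apply Finset.sum_eq_zero
        intro i _
        apply Finset.sum_eq_zero
        intro j hj
        exact absurd (Subsingleton.elim (α := Fin 1) j i) (Finset.ne_of_mem_erase hj)
      rw [h0, hsize]
      have := cap_nonneg e t
      positivity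
    · intro e he
      have := hqe e he
      rw [hsize]
      linarith
  · -- many points
    set m := ⌊1 / (2 * q)⌋₊ with hm
    have hm2 : 2 ≤ m := by
      apply Nat.le_floor
      rw [le_div_iff₀ (by positivity)]
      push_cast
      linarith
    have hmq : (m : ℝ) * (2 * q) ≤ 1 := by
      have := Nat.floor_le (show 0 ≤ 1 / (2 * q) by positivity)
      rw [le_div_iff₀ (by positivity)] at this
      exact this
    have hmq2 : 1 ≤ (m : ℝ) * (4 * q) := by
      have h5 := Nat.lt_floor_add_one (1 / (2 * q))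
      rw [← hm, div_lt_iff₀ (by positivity)] at h5
      have h6 : (2 : ℝ) ≤ m := by exact_mod_cast hm2
      nlinarith
    obtain ⟨l, hl⟩ : ∃ l, m = l + 2 := ⟨m - 2, by omega⟩
    rw [hl] at hmq hmq2
    push_cast at hmq hmq2
    have hl0 : (0 : ℝ) ≤ l := by positivity
    have hsize : (thin e0 κ (l + 1)).size = (l + 2) * (1 - q) ^ (l + 1) := by
      rw [thin_size hn e0 κ (l + 1) hq hq1]
      push_cast
      ring
    have hbern : 1 / 2 ≤ (1 - q) ^ (l + 1) := by
      have h1 := one_add_mul_le_pow (show (-2 : ℝ) ≤ -q by linarith) (l + 1)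
      rw [← sub_eq_add_neg] at h1
      refine le_trans ?_ h1
      push_cast
      nlinarith
    refine ⟨thin e0 κ (l + 1), thin_minAngle e0 κ (l + 1), ?_, ?_⟩
    · intro e he t _ _
      set c := cap e t with hc
      have hc0 : 0 ≤ c := cap_nonneg e t
      have hce : ∀ x : sphere (0 : E n) 1, cap (x : E n) t = c := fun x =>
        cap_congr ((hnorm x).trans he.symm) t
      have h1 := thin_pairs hn e0 κ l hq hq1 t hce
      rw [hsize]
      refine h1.trans ?_
      set P := (1 - q) ^ (l + 1) with hP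
      have e2 : (1 - q) ^ (2 * l) * (1 - q) ^ 2 = P ^ 2 := by
        rw [hP, ← pow_add, ← pow_mul]
        congr 1
        ring
      have e3 : (l + 1 : ℝ) ≤ (l + 2) * (1 - q) ^ 2 := by nlinarith [sq_nonneg q]
      have hp0 : 0 ≤ (1 - q) ^ (2 * l) := by
        have : 0 ≤ 1 - q := by linarith
        positivity
      have e4 : (l + 1 : ℝ) * (1 - q) ^ (2 * l) ≤ (l + 2) * P ^ 2 := by
        rw [← e2]
        calc (l + 1 : ℝ) * (1 - q) ^ (2 * l) ≤ ((l + 2) * (1 - q) ^ 2) * (1 - q) ^ (2 * l) := by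
              gcongr
          _ = _ := by ring
      have e5 : (l + 1 : ℝ) * (l * q ^ 2) ≤ 1 / 4 := by
        have : (l + 1 : ℝ) * (l * q ^ 2) ≤ ((l + 2) * q) ^ 2 := by
          nlinarith [sq_nonneg q]
        have h6 : ((l + 2 : ℝ) * q) ≤ 1 / 2 := by linarith
        have h7 : 0 ≤ (l + 2 : ℝ) * q := by positivity
        nlinarith
      calc (l + 2 : ℝ) * ((l + 1) * ((1 - q) ^ (2 * l) * c + l * q ^ 2))
          = (l + 2) * (((l + 1) * (1 - q) ^ (2 * l)) * c + (l + 1) * (l * q ^ 2)) := by ring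
        _ ≤ (l + 2) * (((l + 2) * P ^ 2) * c + 1 / 4) := by gcongr
        _ = (l + 2) * ((l + 2) * P * P * c) + (l + 2) * (1 / 2) * (1 / 2) := by ring
        _ ≤ (l + 2) * ((l + 2) * P * P * c) + (l + 2) * P * (1 / 2) := by gcongr
        _ = _ := by ring
    · intro e he
      have h5 := hqe e he
      rw [hsize]
      calc (1 : ℝ) ≤ (l + 2) * (4 * q) := hmq2
        _ = 8 * ((l + 2) * (1 / 2) * q) := by ring
        _ ≤ _ := by gcongr

end Pool.Agent.Q197.SK
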