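import Mathlib

/-! Random spherical codes without clustering: definitions. -/

set_option autoImplicit false

open MeasureTheory Metric Filter

namespace Pool.Agent.Q197.SK

/-- The proportion of the unit ball of `ℝ^n` taken by the vectors `z` with `⟪z, e⟫ ≥ t ‖z‖`; for a
unit vector `e` this is the proportion of the unit sphere taken by the cap of the points whose
inner product with `e` is at least `t`. -/
noncomputable def cap {n : ℕ} (e : EuclideanSpace ℝ (Fin n)) (t : ℝ) : ℝ :=
  volume.real {z : EuclideanSpace ℝ (Fin n) | z ∈ ball 0 1 ∧ t * ‖z‖ ≤ inner ℝ z e} /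
    volume.real (ball (0 : EuclideanSpace ℝ (Fin n)) 1)

/-- A random finite set of unit vectors of `ℝ^n`: there are random vectors `pt i`, `i < m`, on a
probability space, and `pt i` belongs to the random set on the event `keep i`. -/
structure RandomCode (n : ℕ) where
  /-- a bound for the number of points -/
  m : ℕ
  /-- the probability space -/
  Ω : Type
  /-- its events -/
  meas : MeasurableSpace Ω
  /-- the probability -/
  P : Measure Ω
  prob : IsProbabilityMeasure P
  /-- the candidates for the points -/
  pt : Fin m → Ω → EuclideanSpace ℝ (Fin n)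
  /-- the event that a candidate belongs to the random set -/
  keep : Fin m → Set Ω
  meas_pt : ∀ i, Measurable (pt i)
  meas_keep : ∀ i, MeasurableSet (keep i)
  unit : ∀ i, ∀ ω ∈ keep i, ‖pt i ω‖ = 1

attribute [instance] RandomCode.meas RandomCode.prob

variable {n : ℕ}

/-- the expected number of points -/
noncomputable def RandomCode.size (C : RandomCode n) : ℝ := ∑ i, C.P.real (C.keep i)

/-- the expected number of ordered pairs of distinct points with inner product at least `t` -/
noncomputable def RandomCode.pairs (C : RandomCode n) (t : ℝ) : ℝ :=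
  ∑ i, ∑ j ∈ Finset.univ.erase i,
    C.P.real {ω | ω ∈ C.keep i ∧ ω ∈ C.keep j ∧ t ≤ inner ℝ (C.pt i ω) (C.pt j ω)}

/-- distinct points have inner product at most `κ` -/
def RandomCode.MinAngle (C : RandomCode n) (κ : ℝ) : Prop :=
  ∀ i j, i ≠ j → ∀ ω, ω ∈ C.keep i → ω ∈ C.keep j → inner ℝ (C.pt i ω) (C.pt j ω) ≤ κ

/-- For no cap does the average number of other points in the cap about a point exceed the average
number of points in a cap of that size by more than `B`. -/
def RandomCode.Unclustered (C : RandomCode n) (B : ℝ) : Prop :=
  ∀ e : EuclideanSpace ℝ (Fin n), ‖e‖ = 1 → ∀ t, -1 ≤ t → t ≤ 1 →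
    C.pairs t ≤ C.size * (C.size * cap e t + B)

/-- The supremum of the expected sizes of the random sets of unit vectors of `ℝ^n` with mutual
inner products at most `κ` and excess at most `B`. -/
noncomputable def best (n : ℕ) (κ B : ℝ) : ℝ :=
  sSup {M | ∃ C : RandomCode n, C.MinAngle κ ∧ C.Unclustered B ∧ C.size = M}

end Pool.Agent.Q197.SK
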