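import Pool.Agent.Q197.SK.Construct

/-! Random spherical codes without clustering: the rate. -/

set_option autoImplicit false

open MeasureTheory Metric Filter Topology Set
open Pool.Agent.Q197.NP (E vB vB_pos vol_ball)

namespace Pool.Agent.Q197.SK

variable {n : ℕ}

theorem best_le (hn : 0 < n) {κ : ℝ} (hκ0 : 0 ≤ κ) (hκ1 : κ < 1) {B : ℝ} (hB : 0 ≤ B) :
    best n κ B ≤ 7 * n * (n + 2) * (1 + B) / √(1 - κ ^ 2) ^ (n + 2) := by
  have hs : 0 < √(1 - κ ^ 2) := Real.sqrt_pos.2 (by nlinarith)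
  unfold best
  apply Real.sSup_le
  · rintro M ⟨C, h1, h2, rfl⟩
    rw [le_div_iff₀ (by positivity)]
    exact upper hn C hκ0 hκ1 h1 hB h2
  · positivity

theorem le_best (hn : 0 < n) {κ : ℝ} (hκ0 : 0 ≤ κ) (hκ1 : κ < 1) {B : ℝ} (hB : 1 / 2 ≤ B)
    {e : E n} (he : ‖e‖ = 1) : 1 ≤ 8 * (best n κ B * cap e κ) := by
  have hs : 0 < √(1 - κ ^ 2) := Real.sqrt_pos.2 (by nlinarith)
  obtain ⟨C, h1, h2, h3⟩ := lower hn hκ1
  have h4 : C.Unclustered B := by
    intro f hf t ht0 ht1
    refine (h2 f hf t ht0 ht1).trans ?_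
    have := size_nonneg C
    gcongr
  have h5 : C.size ≤ best n κ B := by
    apply le_csSup
    · refine ⟨7 * n * (n + 2) * (1 + B) / √(1 - κ ^ 2) ^ (n + 2), ?_⟩
      rintro M ⟨C', g1, g2, rfl⟩
      rw [le_div_iff₀ (by positivity)]
      exact upper hn C' hκ0 hκ1 g1 (by linarith) g2
    · exact ⟨C, h1, h4, rfl⟩
  refine (h3 e he).trans ?_
  have := cap_nonneg e κ
  gcongr

theorem le_best' (hn : 0 < n) {κ : ℝ} (hκ0 : 0 ≤ κ) (hκ1 : κ ^ 2 ≤ 1 / 2) {B : ℝ}
    (hB : 1 / 2 ≤ B) : 1 / (8 * √(1 - κ ^ 2) ^ n) ≤ best n κ B := by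
  have hs : 0 < √(1 - κ ^ 2) := Real.sqrt_pos.2 (by nlinarith)
  obtain ⟨e, he⟩ : ∃ e : E n, ‖e‖ = 1 :=
    ⟨EuclideanSpace.single ⟨0, hn⟩ 1, by simp⟩
  have h1 := le_best hn hκ0 (by nlinarith) hB he
  have h2 := cap_le (n := n) he hκ0 hκ1
  have h0 : 0 ≤ best n κ B := Real.sSup_nonneg (by
    rintro M ⟨C, _, _, rfl⟩
    exact size_nonneg C)
  rw [div_le_iff₀ (by positivity)]
  calc (1 : ℝ) ≤ 8 * (best n κ B * cap e κ) := h1
    _ ≤ 8 * (best n κ B * √(1 - κ ^ 2) ^ n) := by gcongr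
    _ = _ := by ring

theorem rate {κ : ℝ} (hκ0 : 0 ≤ κ) (hκ1 : κ ^ 2 ≤ 1 / 2) {B : ℕ → ℝ} (hB : ∀ n, 1 / 2 ≤ B n)
    (hB2 : Tendsto (fun n : ℕ => Real.log (B n) / n) atTop (𝓝 0)) :
    Tendsto (fun n : ℕ => Real.logb 2 (best n κ (B n)) / n) atTop
      (𝓝 (Real.logb 2 (1 / √(1 - κ ^ 2)))) := by
  have hl2 : 0 < Real.log 2 := Real.log_pos (by norm_num)
  have hs2 : 0 < 1 - κ ^ 2 := by linarith
  have hs : 0 < √(1 - κ ^ 2) := Real.sqrt_pos.2 hs2
  set s := √(1 - κ ^ 2) with hsdef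
  have hs1 : s ≤ 1 := by
    rw [hsdef, Real.sqrt_le_one]
    nlinarith
  -- lower
  have hlow : Tendsto (fun n : ℕ => Real.logb 2 (1 / s) - 3 / (n : ℝ)) atTop
      (𝓝 (Real.logb 2 (1 / s) - 0)) :=
    tendsto_const_nhds.sub (tendsto_const_nhds.div_atTop tendsto_natCast_atTop_atTop)
  rw [sub_zero] at hlow
  -- the prefactor
  have hpre : Tendsto (fun n : ℕ => (2 * Real.log n + Real.log (63 / s ^ 2) + Real.log (B n)) / n)
      atTop (𝓝 0) := by
    have ha : Tendsto (fun n : ℕ => Real.log (n : ℝ) / n) atTop (𝓝 0) := by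
      have h1 : Tendsto (fun x : ℝ => Real.log x / x) atTop (𝓝 0) := by
        simpa using Real.tendsto_pow_log_div_mul_add_atTop 1 0 1 one_ne_zero
      exact h1.comp tendsto_natCast_atTop_atTop
    have hb : Tendsto (fun n : ℕ => Real.log (63 / s ^ 2) / (n : ℝ)) atTop (𝓝 0) :=
      tendsto_const_nhds.div_atTop tendsto_natCast_atTop_atTop
    have hsum := ((ha.const_mul 2).add hb).add hB2
    simp only [mul_zero, add_zero] at hsum
    refine hsum.congr fun n => ?_
    ring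
  have hup : Tendsto (fun n : ℕ => Real.logb 2 (1 / s) +
      (2 * Real.log n + Real.log (63 / s ^ 2) + Real.log (B n)) / n / Real.log 2) atTop
      (𝓝 (Real.logb 2 (1 / s) + 0 / Real.log 2)) :=
    tendsto_const_nhds.add (hpre.div_const _)
  rw [zero_div, add_zero] at hup
  refine tendsto_of_tendsto_of_tendsto_of_le_of_le' hlow hup ?_ ?_
  · filter_upwards [eventually_gt_atTop 0] with n hn
    have hn' : (0 : ℝ) < n := by exact_mod_cast hn
    have h2 := le_best' hn hκ0 hκ1 (hB n)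
    rw [← hsdef] at h2
    have h3 := Real.logb_le_logb_of_le (b := 2) (by norm_num) (by positivity) h2
    have h4 : Real.logb 2 (1 / (8 * s ^ n)) = n * Real.logb 2 (1 / s) - 3 := by
      rw [Real.logb_div one_ne_zero (by positivity), Real.logb_mul (by norm_num) (by positivity),
        Real.logb_pow, Real.logb_div one_ne_zero hs.ne', Real.logb_one]
      have : Real.logb 2 8 = 3 := by
        rw [show (8 : ℝ) = 2 ^ 3 by norm_num, Real.logb_pow, Real.logb_self_eq_one (by norm_num)]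
        norm_num
      rw [this]
      ring
    rw [h4] at h3
    rw [le_div_iff₀ hn']
    refine le_trans (le_of_eq ?_) h3
    field_simp
  · filter_upwards [eventually_gt_atTop 0] with n hn
    have hn' : (1 : ℝ) ≤ n := by exact_mod_cast hn
    have hn0 : (0 : ℝ) < n := by linarith
    have hBn := hB n
    have h2 := best_le hn hκ0 (by nlinarith) (show 0 ≤ B n by linarith)
    rw [← hsdef] at h2
    have hpos : 0 < best n κ (B n) := lt_of_lt_of_le (by positivity) (le_best' hn hκ0 hκ1 (hB n))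
    have h3 : best n κ (B n) ≤ n ^ 2 * (63 / s ^ 2) * B n * (1 / s) ^ n := by
      refine h2.trans ?_
      rw [div_le_iff₀ (by positivity)]
      have e1 : (n : ℝ) ^ 2 * (63 / s ^ 2) * B n * (1 / s) ^ n * s ^ (n + 2) =
          63 * n ^ 2 * B n := by
        rw [pow_add, one_div, inv_pow]
        field_simp
      rw [e1]
      have h5 : (n : ℝ) + 2 ≤ 3 * n := by linarith
      have h6 : 1 + B n ≤ 3 * B n := by linarith
      calc 7 * (n : ℝ) * (n + 2) * (1 + B n) ≤ 7 * n * (3 * n) * (3 * B n) := by gcongr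
        _ = _ := by ring
    have h4 := Real.logb_le_logb_of_le (b := 2) (by norm_num) hpos h3
    have hBpos : 0 < B n := by linarith
    have h5 : Real.logb 2 (n ^ 2 * (63 / s ^ 2) * B n * (1 / s) ^ n) =
        (2 * Real.log n + Real.log (63 / s ^ 2) + Real.log (B n)) / Real.log 2 +
          n * Real.logb 2 (1 / s) := by
      rw [Real.logb_mul (by positivity) (by positivity), Real.logb_mul (by positivity)
        (by positivity), Real.logb_mul (by positivity) (by positivity), Real.logb_pow,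
        Real.logb_pow]
      simp only [Real.logb]
      push_cast
      ring
    rw [h5] at h4
    rw [div_le_iff₀ hn0]
    refine h4.trans (le_of_eq ?_)
    field_simp
    ring

end Pool.Agent.Q197.SK
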