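import Pool.Agent.Q197.SK.Cap

/-! Random spherical codes without clustering: the upper bound. -/

set_option autoImplicit false

open MeasureTheory Metric Filter Topology Set
open Pool.Agent.Q197.NP (E vB vB_pos vol_ball)

namespace Pool.Agent.Q197.SK

variable {n : ℕ}

/-- the pairs of points with inner product at least `t` -/
def pairSet (C : RandomCode n) (i j : Fin C.m) (t : ℝ) : Set C.Ω :=
  {ω | ω ∈ C.keep i ∧ ω ∈ C.keep j ∧ t ≤ inner ℝ (C.pt i ω) (C.pt j ω)}

lemma inner_meas (C : RandomCode n) (i j : Fin C.m) :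
    Measurable fun ω => (inner ℝ (C.pt i ω) (C.pt j ω) : ℝ) :=
  (C.meas_pt i).inner (C.meas_pt j)

lemma inner_bd (C : RandomCode n) {i j : Fin C.m} {ω : C.Ω} (hi : ω ∈ C.keep i)
    (hj : ω ∈ C.keep j) : -1 ≤ (inner ℝ (C.pt i ω) (C.pt j ω) : ℝ) ∧
      (inner ℝ (C.pt i ω) (C.pt j ω) : ℝ) ≤ 1 := by
  rw [← abs_le]
  have := abs_real_inner_le_norm (C.pt i ω) (C.pt j ω)
  rwa [C.unit i ω hi, C.unit j ω hj, mul_one] at this

lemma pairs_eq (C : RandomCode n) (t : ℝ) :
    C.pairs t = ∑ i, ∑ j ∈ Finset.univ.erase i, C.P.real (pairSet C i j t) := rfl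

lemma pairSet_anti (C : RandomCode n) (i j : Fin C.m) :
    Antitone fun t => C.P.real (pairSet C i j t) := by
  intro s t hst
  exact measureReal_mono (fun ω hω => ⟨hω.1, hω.2.1, hst.trans hω.2.2⟩)

lemma pairs_anti (C : RandomCode n) : Antitone C.pairs := by
  intro s t hst
  rw [pairs_eq, pairs_eq]
  exact Finset.sum_le_sum fun i _ => Finset.sum_le_sum fun j _ => pairSet_anti C i j hst

lemma size_nonneg (C : RandomCode n) : 0 ≤ C.size :=
  Finset.sum_nonneg fun _ _ => measureReal_nonneg

/-- the integral of the inner products -/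
lemma int_inner (C : RandomCode n) (i j : Fin C.m) :
    ∫ ω in C.keep i ∩ C.keep j, (inner ℝ (C.pt i ω) (C.pt j ω) : ℝ) ∂C.P =
      (∫ t in (-1 : ℝ)..1, C.P.real (pairSet C i j t)) - C.P.real (C.keep i ∩ C.keep j) := by
  set K := C.keep i ∩ C.keep j with hK
  have hKm : MeasurableSet K := (C.meas_keep i).inter (C.meas_keep j)
  have hb : ∀ᵐ ω ∂(C.P.restrict K), -1 ≤ (inner ℝ (C.pt i ω) (C.pt j ω) : ℝ) ∧
      (inner ℝ (C.pt i ω) (C.pt j ω) : ℝ) ≤ 1 := by
    filter_upwards [ae_restrict_mem hKm] with ω hω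
    exact inner_bd C hω.1 hω.2
  have h1 := cake (C.P.restrict K) _ (inner_meas C i j) hb
  have hint : Integrable (fun ω => (inner ℝ (C.pt i ω) (C.pt j ω) : ℝ)) (C.P.restrict K) := by
    apply Integrable.of_bound (C := 1) (inner_meas C i j).aestronglyMeasurable
    filter_upwards [hb] with ω hω
    rw [Real.norm_eq_abs, abs_le]
    exact hω
  rw [integral_add (integrable_const _) hint, integral_const] at h1
  have h2 : ∀ t, (C.P.restrict K).real {ω | t ≤ (inner ℝ (C.pt i ω) (C.pt j ω) : ℝ)} =
      C.P.real (pairSet C i j t) := by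
    intro t
    rw [measureReal_restrict_apply (measurableSet_le measurable_const (inner_meas C i j))]
    congr 1
    ext ω
    simp only [pairSet, mem_inter_iff, mem_ofPred_eq, hK]
    tauto
  simp_rw [h2] at h1
  rw [measureReal_restrict_apply MeasurableSet.univ, univ_inter, smul_eq_mul, mul_one] at h1
  linarith

/-- positivity -/
lemma positive (C : RandomCode n) :
    0 ≤ ∑ i, ∑ j, ∫ ω in C.keep i ∩ C.keep j, (inner ℝ (C.pt i ω) (C.pt j ω) : ℝ) ∂C.P := by
  have h1 : ∀ i j, ∫ ω in C.keep i ∩ C.keep j, (inner ℝ (C.pt i ω) (C.pt j ω) : ℝ) ∂C.P =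
      ∫ ω, (inner ℝ ((C.keep i).indicator (C.pt i) ω) ((C.keep j).indicator (C.pt j) ω) : ℝ) ∂C.P := by
    intro i j
    rw [← integral_indicator ((C.meas_keep i).inter (C.meas_keep j))]
    congr 1
    funext ω
    by_cases hi : ω ∈ C.keep i
    · by_cases hj : ω ∈ C.keep j
      · rw [indicator_of_mem (show ω ∈ C.keep i ∩ C.keep j from ⟨hi, hj⟩), indicator_of_mem hi,
          indicator_of_mem hj]
      · rw [indicator_of_notMem (show ω ∉ C.keep i ∩ C.keep j from fun h => hj h.2),
          indicator_of_notMem hj, inner_zero_right]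
    · rw [indicator_of_notMem (show ω ∉ C.keep i ∩ C.keep j from fun h => hi h.1),
        indicator_of_notMem hi, inner_zero_left]
  simp_rw [h1]
  have hint : ∀ i j, Integrable (fun ω => (inner ℝ ((C.keep i).indicator (C.pt i) ω)
      ((C.keep j).indicator (C.pt j) ω) : ℝ)) C.P := by
    intro i j
    apply Integrable.of_bound (C := 1)
    · exact (((C.meas_pt i).indicator (C.meas_keep i)).inner
        ((C.meas_pt j).indicator (C.meas_keep j))).aestronglyMeasurable
    · filter_upwards with ω
      rw [Real.norm_eq_abs]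
      refine (abs_real_inner_le_norm _ _).trans ?_
      have h2 : ∀ i, ‖(C.keep i).indicator (C.pt i) ω‖ ≤ 1 := by
        intro i
        by_cases hi : ω ∈ C.keep i
        · rw [indicator_of_mem hi, C.unit i ω hi]
        · rw [indicator_of_notMem hi, norm_zero]
          norm_num
      exact mul_le_one₀ (h2 i) (norm_nonneg _) (h2 j)
  rw [← Finset.sum_congr rfl (fun i _ => integral_finsetSum _ (fun j _ => hint i j)),
    ← integral_finsetSum _ (fun i _ => integrable_finsetSum _ (fun j _ => hint i j))]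
  apply integral_nonneg
  intro ω
  simp only [Pi.zero_apply]
  simp_rw [← inner_sum, ← sum_inner]
  exact real_inner_self_nonneg

/-- the second moment of the number of points -/
lemma second_moment (C : RandomCode n) :
    C.size ^ 2 ≤ ∑ i, ∑ j, C.P.real (C.keep i ∩ C.keep j) := by
  set N : C.Ω → ℝ := fun ω => ∑ i, (C.keep i).indicator (fun _ => (1 : ℝ)) ω with hN
  have hNi : ∀ i, Integrable ((C.keep i).indicator (fun _ => (1 : ℝ))) C.P := fun i =>
    (integrable_const _).indicator (C.meas_keep i)
  have hNint : Integrable N C.P := integrable_finsetSum _ fun i _ => hNi i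
  have hsize : ∫ ω, N ω ∂C.P = C.size := by
    rw [hN, integral_finsetSum _ fun i _ => hNi i]
    unfold RandomCode.size
    apply Finset.sum_congr rfl
    intro i _
    rw [integral_indicator (C.meas_keep i)]
    simp
  have hsq : ∀ ω, N ω ^ 2 = ∑ i, ∑ j, (C.keep i ∩ C.keep j).indicator (fun _ => (1 : ℝ)) ω := by
    intro ω
    rw [hN, sq, Finset.sum_mul_sum]
    apply Finset.sum_congr rfl; intro i _
    apply Finset.sum_congr rfl; intro j _
    by_cases hi : ω ∈ C.keep i
    · by_cases hj : ω ∈ C.keep j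
      · rw [indicator_of_mem hi, indicator_of_mem hj,
          indicator_of_mem (show ω ∈ C.keep i ∩ C.keep j from ⟨hi, hj⟩), mul_one]
      · rw [indicator_of_notMem hj,
          indicator_of_notMem (show ω ∉ C.keep i ∩ C.keep j from fun h => hj h.2), mul_zero]
    · rw [indicator_of_notMem hi,
        indicator_of_notMem (show ω ∉ C.keep i ∩ C.keep j from fun h => hi h.1), zero_mul]
  have hij : ∀ i j, Integrable ((C.keep i ∩ C.keep j).indicator (fun _ => (1 : ℝ))) C.P :=
    fun i j => (integrable_const _).indicator ((C.meas_keep i).inter (C.meas_keep j))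
  have hsqint : ∫ ω, N ω ^ 2 ∂C.P = ∑ i, ∑ j, C.P.real (C.keep i ∩ C.keep j) := by
    simp_rw [hsq]
    rw [integral_finsetSum _ fun i _ => integrable_finsetSum _ fun j _ => hij i j]
    apply Finset.sum_congr rfl; intro i _
    rw [integral_finsetSum _ fun j _ => hij i j]
    apply Finset.sum_congr rfl; intro j _
    rw [integral_indicator ((C.meas_keep i).inter (C.meas_keep j))]
    simp
  have hsqI : Integrable (fun ω => N ω ^ 2) C.P := by
    simp_rw [hsq]
    exact integrable_finsetSum _ fun i _ => integrable_finsetSum _ fun j _ => hij i j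
  rw [← hsqint]
  set M := C.size with hM
  have h1 : 0 ≤ ∫ ω, (N ω ^ 2 - 2 * M * N ω + M ^ 2) ∂C.P := by
    apply integral_nonneg
    intro ω
    simp only [Pi.zero_apply]
    nlinarith [sq_nonneg (N ω - M)]
  have hI2 : Integrable (fun ω => 2 * M * N ω) C.P := hNint.const_mul _
  have hI3 : Integrable (fun ω => N ω ^ 2 - 2 * M * N ω) C.P := hsqI.sub hI2
  rw [integral_add hI3 (integrable_const _), integral_sub hsqI hI2, integral_const_mul, hsize,
    integral_const, probReal_univ, one_smul] at h1
  nlinarith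

theorem upper (hn : 0 < n) (C : RandomCode n) {κ B : ℝ} (hκ0 : 0 ≤ κ) (hκ1 : κ < 1)
    (hC : C.MinAngle κ) (hB : 0 ≤ B) (hU : C.Unclustered B) :
    C.size * √(1 - κ ^ 2) ^ (n + 2) ≤ 7 * n * (n + 2) * (1 + B) := by
  classical
  have hn' : (0 : ℝ) < n := by exact_mod_cast hn
  have hM0 := size_nonneg C
  rcases hM0.eq_or_lt with h0 | hM
  · rw [← h0, zero_mul]
    positivity
  obtain ⟨e, he⟩ : ∃ e : E n, ‖e‖ = 1 :=
    ⟨EuclideanSpace.single ⟨0, hn⟩ 1, by simp⟩
  set M := C.size with hMdef
  have hpos := positive C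
  -- split the diagonal
  have hsplit : ∑ i, ∑ j, ∫ ω in C.keep i ∩ C.keep j, (inner ℝ (C.pt i ω) (C.pt j ω) : ℝ) ∂C.P =
      M + ∑ i, ∑ j ∈ Finset.univ.erase i,
        ((∫ t in (-1 : ℝ)..1, C.P.real (pairSet C i j t)) - C.P.real (C.keep i ∩ C.keep j)) := by
    rw [hMdef]
    unfold RandomCode.size
    rw [← Finset.sum_add_distrib]
    apply Finset.sum_congr rfl; intro i _
    rw [← Finset.add_sum_erase _ _ (Finset.mem_univ i)]
    congr 1
    · rw [inter_self]
      have : ∀ ω ∈ C.keep i, (inner ℝ (C.pt i ω) (C.pt i ω) : ℝ) = 1 := by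
        intro ω hω
        rw [real_inner_self_eq_norm_sq, C.unit i ω hω]
        norm_num
      rw [setIntegral_congr_fun (C.meas_keep i) this]
      simp
    · apply Finset.sum_congr rfl; intro j _
      exact int_inner C i j
  have hoff : ∑ i, ∑ j ∈ Finset.univ.erase i, C.P.real (C.keep i ∩ C.keep j) =
      (∑ i, ∑ j, C.P.real (C.keep i ∩ C.keep j)) - M := by
    rw [hMdef]
    unfold RandomCode.size
    rw [← Finset.sum_sub_distrib]
    apply Finset.sum_congr rfl; intro i _
    rw [← Finset.add_sum_erase Finset.univ (fun j => C.P.real (C.keep i ∩ C.keep j))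
      (Finset.mem_univ i), inter_self]
    ring
  have hpairs : ∑ i, ∑ j ∈ Finset.univ.erase i,
      (∫ t in (-1 : ℝ)..1, C.P.real (pairSet C i j t)) = ∫ t in (-1 : ℝ)..1, C.pairs t := by
    simp_rw [pairs_eq]
    rw [intervalIntegral.integral_finsetSum]
    · apply Finset.sum_congr rfl; intro i _
      rw [intervalIntegral.integral_finsetSum]
      intro j _
      exact (pairSet_anti C i j).intervalIntegrable
    · intro i _
      apply Antitone.intervalIntegrable
      intro s t hst
      exact Finset.sum_le_sum fun j _ => pairSet_anti C i j hst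
  rw [hsplit] at hpos
  simp_rw [Finset.sum_sub_distrib] at hpos
  rw [hpairs, hoff] at hpos
  have h2 := second_moment C
  -- the integral of the pairs
  have hzero : ∀ t, κ < t → C.pairs t = 0 := by
    intro t ht
    rw [pairs_eq]
    apply Finset.sum_eq_zero; intro i _
    apply Finset.sum_eq_zero; intro j hj
    have : pairSet C i j t = ∅ := by
      rw [Set.eq_empty_iff_forall_notMem]
      rintro ω ⟨h1, h3, h4⟩
      have := hC i j (Finset.ne_of_mem_erase hj).symm ω h1 h3
      linarith
    rw [this]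
    simp
  have hI1 : ∫ t in (-1 : ℝ)..1, C.pairs t = ∫ t in (-1 : ℝ)..κ, C.pairs t := by
    rw [← intervalIntegral.integral_add_adjacent_intervals (b := κ)
      (pairs_anti C).intervalIntegrable (pairs_anti C).intervalIntegrable]
    have : ∫ t in κ..1, C.pairs t = 0 := by
      rw [intervalIntegral.integral_of_le hκ1.le]
      apply setIntegral_eq_zero_of_forall_eq_zero
      intro t ht
      exact hzero t ht.1
    rw [this, add_zero]
  have hI2 : ∫ t in (-1 : ℝ)..κ, C.pairs t ≤ ∫ t in (-1 : ℝ)..κ, M * (M * cap e t + B) := by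
    apply intervalIntegral.integral_mono_on (by linarith)
    · exact (pairs_anti C).intervalIntegrable
    · exact (((cap_anti e).intervalIntegrable.const_mul M).add
        intervalIntegrable_const).const_mul M
    · intro t ht
      exact hU e he t ht.1 (by linarith [ht.2])
  have hI3 : ∫ t in (-1 : ℝ)..κ, M * (M * cap e t + B) =
      M * (M * (∫ t in (-1 : ℝ)..κ, cap e t) + B * (1 + κ)) := by
    rw [intervalIntegral.integral_const_mul, intervalIntegral.integral_add
      ((cap_anti e).intervalIntegrable.const_mul M) intervalIntegrable_const,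
      intervalIntegral.integral_const_mul, intervalIntegral.integral_const, smul_eq_mul]
    ring
  have hI4 : (∫ t in (-1 : ℝ)..κ, cap e t) + ∫ t in κ..1, cap e t = 1 := by
    rw [intervalIntegral.integral_add_adjacent_intervals
      (cap_anti e).intervalIntegrable (cap_anti e).intervalIntegrable]
    exact cap_integral hn he
  have h3 : M * (M * ∫ t in κ..1, cap e t) ≤ M * (2 + B * (1 + κ)) := by
    have h5 : ∫ t in (-1 : ℝ)..κ, cap e t = 1 - ∫ t in κ..1, cap e t := by linarith
    rw [hI1] at hpos
    have h6 := hI2.trans_eq hI3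
    rw [h5] at h6
    nlinarith
  have h4 := le_of_mul_le_mul_left h3 hM
  have h5 := int_cap_ge hn he hκ0 hκ1
  have h6 : M * (2 * √(1 - κ ^ 2) ^ (n + 2) / (7 * n * (n + 2))) ≤ 2 * (1 + B) := by
    refine (mul_le_mul_of_nonneg_left h5 hM.le).trans (h4.trans ?_)
    nlinarith
  rw [mul_div_assoc', div_le_iff₀ (by positivity)] at h6
  linarith

end Pool.Agent.Q197.SK
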